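import Pool.Agent.Helper27.BI.S5.Asm5
import Pool.Agent.Helper70.BI.T.AsmT
import Pool.Agent.Helper70.BI.T.Fin9
import Pool.Agent.Helper70.BI.HH.AsmH

/-!
# Project BI, stages 5, 6 and 7: the final theorems
-/

set_option autoImplicit false

namespace Pool.Agent.Helper70.T

theorem topHom : StHom := stHom Pool.Agent.Helper27.S5.hFinal8

theorem topElem : StElem := stElem Pool.Agent.Helper27.S5.hFinal8

theorem topSpun : StSpun := stSpun Pool.Agent.Helper27.S5.hFinal8 hSPN

theorem topGHB : HH.StGHB := HH.topGHB Pool.Agent.Helper27.S5.hFinal8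

end Pool.Agent.Helper70.T
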